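import Pool.Agent.N993.WX.Stm

/-! Project WX (helper993): few words have short reductions, by helper323. -/

set_option autoImplicit false

namespace Pool.Agent.N323.WX

open Pool.Agent.N993.WX

theorem sum_ind {n : ℕ} (Y : Finset (Fin n)) :
    ∑ z : Fin n × Bool, (if z.1 ∈ Y then (1 : ℝ) else 0) = 2 * Y.card := by
  rw [Fintype.sum_prod_type]
  simp only [Fintype.sum_bool]
  rw [Finset.sum_add_distrib, ← Finset.sum_filter]
  simp
  ring

theorem sum_one {n : ℕ} : ∑ _z : Fin n × Bool, (1 : ℝ) = 2 * n := by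
  simp
  ring

theorem step {n : ℕ} (Y : Finset (Fin n)) (hY : 2 ≤ Y.card) (l : List (Fin n × Bool)) :
    ∑ z : Fin n × Bool, (1 / 2 : ℝ) ^ (red Y (z :: l)).length ≤
      (2 * n - 1 / 2) * (1 / 2) ^ (red Y l).length := by
  have hY' : (2 : ℝ) ≤ Y.card := by exact_mod_cast hY
  have e0 : ∀ z : Fin n × Bool, z.1 ∈ Y → red Y (z :: l) =
      List.casesOn (red Y l) [z] fun hd tl =>
        if z.1 = hd.1 ∧ z.2 = not hd.2 then tl else z :: hd :: tl := by
    intro z hz
    unfold red
    rw [List.filter_cons_of_pos (by simpa using hz)]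
    exact FreeGroup.reduce.cons z
  have e0' : ∀ z : Fin n × Bool, z.1 ∉ Y → red Y (z :: l) = red Y l := by
    intro z hz
    unfold red
    rw [List.filter_cons_of_neg (by simpa using hz)]
  cases hv : red Y l with
  | nil =>
    have e1 : ∀ z : Fin n × Bool, (1 / 2 : ℝ) ^ (red Y (z :: l)).length =
        1 - 1 / 2 * (if z.1 ∈ Y then 1 else 0) := by
      intro z
      by_cases h : z.1 ∈ Y
      · rw [e0 z h, if_pos h, hv]
        norm_num
      · rw [e0' z h, if_neg h, hv]
        norm_num
    simp only [e1]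
    rw [Finset.sum_sub_distrib, ← Finset.mul_sum, sum_ind, sum_one]
    simp only [List.length_nil, pow_zero, mul_one]
    linarith
  | cons hd tl =>
    have e1 : ∀ z : Fin n × Bool, (1 / 2 : ℝ) ^ (red Y (z :: l)).length ≤
        (1 - 1 / 2 * (if z.1 ∈ Y then 1 else 0) + 3 / 2 * (if z = (hd.1, !hd.2) then 1 else 0)) *
          (1 / 2) ^ (hd :: tl).length := by
      intro z
      have hp : (0 : ℝ) < (1 / 2) ^ tl.length := by positivity
      by_cases h : z.1 ∈ Y
      · rw [e0 z h, if_pos h, hv]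
        by_cases h2 : z.1 = hd.1 ∧ z.2 = not hd.2
        · have h3 : z = (hd.1, !hd.2) := Prod.ext h2.1 h2.2
          simp only [if_pos h2, if_pos h3, List.length_cons, pow_succ]
          linarith
        · have h3 : z ≠ (hd.1, !hd.2) := fun h4 => h2 ⟨by rw [h4], by rw [h4]⟩
          simp only [if_neg h2, if_neg h3, List.length_cons, pow_succ]
          linarith
      · rw [e0' z h, if_neg h, hv]
        have : (0 : ℝ) ≤ if z = (hd.1, !hd.2) then 1 else 0 := by split_ifs <;> norm_num
        simp only [List.length_cons, pow_succ]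
        nlinarith
    refine (Finset.sum_le_sum fun z _ => e1 z).trans ?_
    rw [← Finset.sum_mul, Finset.sum_add_distrib, Finset.sum_sub_distrib, ← Finset.mul_sum,
      ← Finset.mul_sum, sum_ind, sum_one]
    have h4 : ∑ z : Fin n × Bool, (if z = (hd.1, !hd.2) then (1 : ℝ) else 0) = 1 := by
      rw [Finset.sum_ite_eq' Finset.univ (hd.1, !hd.2) fun _ => (1 : ℝ)]
      simp
    rw [h4]
    refine mul_le_mul_of_nonneg_right ?_ (by positivity)
    linarith

theorem total {n : ℕ} (Y : Finset (Fin n)) (hY : 2 ≤ Y.card) (ℓ : ℕ) :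
    ∑ u : Fin ℓ → Fin n × Bool, (1 / 2 : ℝ) ^ (red Y (List.ofFn u)).length ≤
      (2 * n - 1 / 2) ^ ℓ := by
  have hn : (2 : ℝ) ≤ n := by
    have h1 : Y.card ≤ n := by simpa using Finset.card_le_univ Y
    exact_mod_cast hY.trans h1
  induction ℓ with
  | zero =>
    simp [red]
  | succ ℓ ih =>
    rw [← (Fin.consEquiv fun _ : Fin (ℓ + 1) => Fin n × Bool).sum_comp, Fintype.sum_prod_type,
      Finset.sum_comm]
    have h2 : ∀ (u : Fin ℓ → Fin n × Bool), ∑ z : Fin n × Bool,
        (1 / 2 : ℝ) ^ (red Y (List.ofFn ((Fin.consEquiv fun _ : Fin (ℓ + 1) => Fin n × Bool)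
          (z, u)))).length ≤ (2 * n - 1 / 2) * (1 / 2) ^ (red Y (List.ofFn u)).length := by
      intro u
      refine le_trans (le_of_eq ?_) (step Y hY (List.ofFn u))
      refine Finset.sum_congr rfl fun z _ => ?_
      congr 3
      rw [List.ofFn_succ]
      rfl
    refine (Finset.sum_le_sum fun u _ => h2 u).trans ?_
    rw [← Finset.mul_sum, pow_succ, mul_comm]
    exact mul_le_mul_of_nonneg_right ih (by linarith)

theorem t_tail : Pool.Agent.N993.WX.S_TAIL := by
  classical
  intro n ℓ K Y hY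
  have h1 := total Y hY ℓ
  have h2 : (Nat.card {u : Fin ℓ → Fin n × Bool // (red Y (List.ofFn u)).length < K} : ℝ) *
      (1 / 2) ^ K ≤ ∑ u : Fin ℓ → Fin n × Bool, (1 / 2 : ℝ) ^ (red Y (List.ofFn u)).length := by
    rw [Nat.card_eq_fintype_card, Fintype.card_subtype]
    calc ((Finset.univ.filter fun u : Fin ℓ → Fin n × Bool =>
            (red Y (List.ofFn u)).length < K).card : ℝ) * (1 / 2) ^ K
        = ∑ u ∈ Finset.univ.filter (fun u : Fin ℓ → Fin n × Bool =>
            (red Y (List.ofFn u)).length < K), (1 / 2 : ℝ) ^ K := by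
          rw [Finset.sum_const, nsmul_eq_mul]
      _ ≤ ∑ u ∈ Finset.univ.filter (fun u : Fin ℓ → Fin n × Bool =>
            (red Y (List.ofFn u)).length < K), (1 / 2 : ℝ) ^ (red Y (List.ofFn u)).length := by
          refine Finset.sum_le_sum fun u hu => ?_
          exact pow_le_pow_of_le_one (by norm_num) (by norm_num) (Finset.mem_filter.1 hu).2.le
      _ ≤ _ := Finset.sum_le_sum_of_subset_of_nonneg (Finset.filter_subset _ _)
          fun u _ _ => by positivity
  have h3 := h2.trans h1
  rw [one_div_pow, mul_one_div, div_le_iff₀ (by positivity)] at h3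
  rw [mul_comm]
  exact h3

end Pool.Agent.N323.WX
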